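import Pool.Agent.Lib.BandLim48.Final

/-!
# MP_fc1499_an : full (positive) answer to Q1
-/

set_option autoImplicit false

open MeasureTheory Topology Filter Set
open scoped ENNReal

namespace Pool.Agent.Results.MP_fc1499_an.Embedding

/-- For every `k ≥ 1`, every compact semialgebraic `Ω ⊆ ℝ^k` and every `ℤ^k`-action on a compact
metric space `X` with the marker property and `mdim X < |Ω|` there is a continuous injective
`ℤ^k`-equivariant map from `X` to the space `B_1(Ω)` (with the compact-open topology). -/
theorem result (k : ℕ) (hk : 1 ≤ k) (Ω : Set (BandLim48.E k)) (hΩc : IsCompact Ω)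
    (hΩ : BandLim48.IsSemialgebraic Ω) (X : Type*) [MetricSpace X] [CompactSpace X]
    [AddAction (Fin k → ℤ) X] (hact : ∀ n : Fin k → ℤ, Continuous (fun x : X => n +ᵥ x))
    (hX : BandLim48.MarkerProperty k X) (hdim : BandLim48.mdim k X < volume Ω) :
    ∃ F : X → C(BandLim48.E k, ℂ), Continuous F ∧ Function.Injective F ∧
      (∀ x, F x ∈ BandLim48.B1 Ω) ∧
      ∀ (n : Fin k → ℤ) (x : X) (t : BandLim48.E k), F (n +ᵥ x) t = F x (t + BandLim48.iota n) :=
  BandLim48.embedding_semialgebraic hk hact hX Ω hΩc hΩ hdim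

end Pool.Agent.Results.MP_fc1499_an.Embedding
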